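import Mathlib

/-!
# Alternating binomial sums for the expansion of `(1 + x) ^ n` in Legendre polynomials
-/

set_option autoImplicit false

open Finset

namespace Pool.Agent.E8helper19.Leg

/-- Vandermonde with a negative upper argument. -/
theorem conv (p N : ℕ) (h : p + 1 ≤ N) (M : ℕ) :
    ∑ a ∈ range (M + 1), (-1 : ℝ) ^ a * ((a + p).choose p) * (N.choose (M - a)) =
      ((N - p - 1).choose M : ℕ) := by
  induction p generalizing M with
  | zero =>
    obtain ⟨N, rfl⟩ : ∃ N', N = N' + 1 := ⟨N - 1, by omega⟩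
    simp only [add_zero, Nat.choose_zero_right, Nat.cast_one, mul_one]
    induction M with
    | zero => simp
    | succ M ih =>
      rw [Finset.sum_range_succ']
      have h1 : ∑ a ∈ range (M + 1), (-1 : ℝ) ^ (a + 1) * ((N + 1).choose (M + 1 - (a + 1)) : ℕ) =
          - ∑ a ∈ range (M + 1), (-1 : ℝ) ^ a * ((N + 1).choose (M - a) : ℕ) := by
        rw [← Finset.sum_neg_distrib]
        refine Finset.sum_congr rfl fun a _ => ?_
        rw [Nat.add_sub_add_right, pow_succ]
        ring
      rw [h1, ih]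
      simp only [pow_zero, one_mul, Nat.sub_zero, Nat.add_sub_cancel]
      rw [Nat.choose_succ_succ]
      push_cast
      ring
  | succ p ihp =>
    induction M with
    | zero => simp
    | succ M ih =>
      have ihp' := ihp (by omega) (M + 1)
      have e1 : N - p - 1 = (N - (p + 1) - 1) + 1 := by omega
      rw [e1, Nat.choose_succ_succ] at ihp'
      have h1 : ∑ a ∈ range (M + 1 + 1), (-1 : ℝ) ^ a * ((a + (p + 1)).choose (p + 1) : ℕ) *
            (N.choose (M + 1 - a) : ℕ) +
          ∑ a ∈ range (M + 1), (-1 : ℝ) ^ a * ((a + (p + 1)).choose (p + 1) : ℕ) *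
            (N.choose (M - a) : ℕ) =
          ∑ a ∈ range (M + 1 + 1), (-1 : ℝ) ^ a * ((a + p).choose p : ℕ) *
            (N.choose (M + 1 - a) : ℕ) := by
        rw [Finset.sum_range_succ', Finset.sum_range_succ' (n := M + 1)]
        have h2 : ∀ a : ℕ, (-1 : ℝ) ^ (a + 1) * ((a + 1 + (p + 1)).choose (p + 1) : ℕ) *
              (N.choose (M + 1 - (a + 1)) : ℕ) +
            (-1 : ℝ) ^ a * ((a + (p + 1)).choose (p + 1) : ℕ) * (N.choose (M - a) : ℕ) =
            (-1 : ℝ) ^ (a + 1) * ((a + 1 + p).choose p : ℕ) *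
              (N.choose (M + 1 - (a + 1)) : ℕ) := by
          intro a
          rw [Nat.add_sub_add_right]
          have h3 : (a + 1 + (p + 1)).choose (p + 1) =
              (a + 1 + p).choose p + (a + (p + 1)).choose (p + 1) := by
            have : a + 1 + (p + 1) = (a + 1 + p) + 1 := by ring
            rw [this, Nat.choose_succ_succ]
            congr 2
            ring
          rw [h3, pow_succ]
          push_cast
          ring
        have h4 : ∀ x y z : ℝ, x + y + z = (x + z) + y := by intros; ring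
        rw [h4, ← Finset.sum_add_distrib, Finset.sum_congr rfl fun a _ => h2 a]
        simp
      rw [ih, ihp'] at h1
      push_cast at h1 ⊢
      linarith

/-- the alternating functional -/
noncomputable def br (n : ℕ) (g : ℕ → ℝ) : ℝ :=
  ∑ k ∈ range (n + 1), (-1 : ℝ) ^ k * ((2 * n + 1).choose (n - k)) * g k

theorem br_add (n : ℕ) (g h : ℕ → ℝ) : br n (fun k => g k + h k) = br n g + br n h := by
  unfold br
  rw [← Finset.sum_add_distrib]
  exact Finset.sum_congr rfl fun k _ => by ring

theorem br_smul (n : ℕ) (c : ℝ) (g : ℕ → ℝ) : br n (fun k => c * g k) = c * br n g := by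
  unfold br
  rw [Finset.mul_sum]
  exact Finset.sum_congr rfl fun k _ => by ring

/-- `E j k = binom (k + j) (2 j)` -/
def E (j k : ℕ) : ℝ := ((k + j).choose (2 * j) : ℕ)

theorem E_zero {j k : ℕ} (h : k < j) : E j k = 0 := by
  unfold E
  rw [Nat.choose_eq_zero_of_lt (by omega)]
  simp

theorem br_shift {n q : ℕ} (hq : q ≤ n + 1) (g : ℕ → ℝ) (hg : ∀ k < q, g k = 0) :
    br n g = ∑ a ∈ range (n + 1 - q), (-1 : ℝ) ^ (q + a) * ((2 * n + 1).choose (n - (q + a))) *
      g (q + a) := by
  unfold br
  have h1 : n + 1 = q + (n + 1 - q) := by omega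
  rw [h1, Finset.sum_range_add, ← h1]
  rw [Finset.sum_eq_zero, zero_add]
  intro k hk
  rw [hg k (Finset.mem_range.1 hk), mul_zero]

/-- a general sum: `sum (-1)^k binom (k + u) p binom (2n+1) (n-k)`, where `p = q + u` -/
theorem br_choose {n p q u : ℕ} (hp : p = q + u) (hq : q ≤ n) (hpn : p ≤ 2 * n) :
    br n (fun k => ((k + u).choose p : ℕ)) = (-1) ^ q * ((2 * n - p).choose (n - q) : ℕ) := by
  rw [br_shift (q := q) (by omega)]
  · have h1 : n + 1 - q = (n - q) + 1 := by omega
    rw [h1]
    have h2 := conv p (2 * n + 1) (by omega) (n - q)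
    have h3 : 2 * n + 1 - p - 1 = 2 * n - p := by omega
    rw [h3] at h2
    rw [← h2, Finset.mul_sum]
    refine Finset.sum_congr rfl fun a _ => ?_
    have h4 : n - (q + a) = n - q - a := by omega
    have h5 : q + a + u = a + p := by omega
    rw [h4, h5, pow_add]
    ring
  · intro k hk
    rw [Nat.choose_eq_zero_of_lt (by omega)]
    simp

theorem br_E {n j : ℕ} (h : j ≤ n) :
    br n (E j) = (-1) ^ j * ((n - j).centralBinom : ℕ) := by
  have := br_choose (n := n) (p := 2 * j) (q := j) (u := j) (by ring) h (by omega)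
  rw [Nat.centralBinom_eq_two_mul_choose]
  have h2 : 2 * n - 2 * j = 2 * (n - j) := by omega
  rw [h2] at this
  exact this

theorem mE (j k : ℕ) : (2 * (k : ℝ) + 1) * E j k =
    (2 * j + 1) * (((k + (j + 1)).choose (2 * j + 1) : ℕ) + ((k + j).choose (2 * j + 1) : ℕ)) := by
  unfold E
  have h1 : ((k + (j + 1)).choose (2 * j + 1) : ℕ) =
      (k + j).choose (2 * j) + (k + j).choose (2 * j + 1) := by
    rw [← add_assoc, Nat.choose_succ_succ]
  have h2 : ((k + j).choose (2 * j + 1) : ℝ) * (2 * j + 1) =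
      ((k + j).choose (2 * j) : ℕ) * ((k : ℝ) - j) := by
    rcases Nat.lt_or_ge k j with h | h
    · rw [Nat.choose_eq_zero_of_lt (by omega : k + j < 2 * j + 1),
        Nat.choose_eq_zero_of_lt (by omega : k + j < 2 * j)]
      simp
    · have := Nat.choose_succ_right_eq (k + j) (2 * j)
      have h3 : k + j - 2 * j = k - j := by omega
      rw [h3] at this
      have h4 : ((k - j : ℕ) : ℝ) = (k : ℝ) - j := by
        rw [Nat.cast_sub h]
      rw [← h4]
      exact_mod_cast this
  rw [h1]
  push_cast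
  linear_combination (-2 : ℝ) * h2

theorem br_mE {n j : ℕ} (h : j < n) : br n (fun k => (2 * (k : ℝ) + 1) * E j k) = 0 := by
  have h0 : (fun k : ℕ => (2 * (k : ℝ) + 1) * E j k) = fun k => (2 * j + 1 : ℝ) *
      ((((k + (j + 1)).choose (2 * j + 1) : ℕ) : ℝ) + (((k + j).choose (2 * j + 1) : ℕ) : ℝ)) := by
    funext k
    exact mE j k
  rw [h0, br_smul, br_add, br_choose (q := j) (u := j + 1) (by ring) (by omega) (by omega),
    br_choose (q := j + 1) (u := j) (by ring) (by omega) (by omega)]
  obtain ⟨d, rfl⟩ : ∃ d, n = j + 1 + d := ⟨n - j - 1, by omega⟩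
  have e1 : 2 * (j + 1 + d) - (2 * j + 1) = 2 * d + 1 := by omega
  have e2 : j + 1 + d - j = d + 1 := by omega
  have e3 : j + 1 + d - (j + 1) = d := by omega
  rw [e1, e2, e3]
  have e4 : (2 * d + 1).choose (d + 1) = (2 * d + 1).choose d := by
    rw [← Nat.choose_symm_of_eq_add]
    omega
  rw [e4, pow_succ]
  ring

/-- multiplication by `s = k (k + 1)` -/
theorem sE (j k : ℕ) : ((k : ℝ) * (k + 1)) * E j k =
    (2 * j + 2) * (2 * j + 1) * E (j + 1) k + j * (j + 1) * E j k := by
  unfold E
  have h2 : ((k + j).choose (2 * j + 1) : ℝ) * (2 * j + 1) =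
      ((k + j).choose (2 * j) : ℕ) * ((k : ℝ) - j) := by
    rcases Nat.lt_or_ge k j with h | h
    · rw [Nat.choose_eq_zero_of_lt (by omega : k + j < 2 * j + 1),
        Nat.choose_eq_zero_of_lt (by omega : k + j < 2 * j)]
      simp
    · have := Nat.choose_succ_right_eq (k + j) (2 * j)
      have h3 : k + j - 2 * j = k - j := by omega
      rw [h3] at this
      have h4 : ((k - j : ℕ) : ℝ) = (k : ℝ) - j := by
        rw [Nat.cast_sub h]
      rw [← h4]
      exact_mod_cast this
  have h3 : ((k + (j + 1)).choose (2 * (j + 1)) : ℝ) * (2 * j + 2) =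
      ((k + j).choose (2 * j + 1) : ℕ) * ((k : ℝ) + j + 1) := by
    have := Nat.add_one_mul_choose_eq (k + j) (2 * j + 1)
    have e : (k + (j + 1)).choose (2 * (j + 1)) = (k + j + 1).choose (2 * j + 1 + 1) := by
      congr 1
    rw [e]
    have h5 : (((k + j + 1) * (k + j).choose (2 * j + 1) : ℕ) : ℝ) =
        (((k + j + 1).choose (2 * j + 1 + 1) * (2 * j + 1 + 1) : ℕ) : ℝ) := by
      exact_mod_cast this
    push_cast at h5
    linarith
  linear_combination (-(2 * (j : ℝ) + 1)) * h3 - ((k : ℝ) + j + 1) * h2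

end Pool.Agent.E8helper19.Leg
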