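import Pool.Agent.E8helper19.Leg.Main

/-!
# Legendre polynomials and the main theorem on polynomial multiplier sequences
-/

set_option autoImplicit false

open Finset Polynomial Filter Topology

namespace Pool.Agent.E8helper19.Leg

theorem iterate_derivative_comp_affine (p : ℝ[X]) (n : ℕ) :
    derivative^[n] (p.comp (2 * X - 1)) = C (2 ^ n) * (derivative^[n] p).comp (2 * X - 1) := by
  induction n with
  | zero => simp
  | succ n ih =>
    rw [Function.iterate_succ_apply', ih, derivative_C_mul, derivative_comp,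
      Function.iterate_succ_apply']
    have : derivative (2 * X - 1 : ℝ[X]) = C 2 := by
      have h : (2 * X - 1 : ℝ[X]) = C 2 * X - C 1 := by rw [C_1]; rfl
      rw [h, derivative_sub, derivative_C_mul, derivative_X, derivative_C, mul_one, sub_zero]
    rw [this, pow_succ, C_mul]
    ring

theorem fact_mul_SL (n : ℕ) : (n.factorial : ℝ[X]) * SL n =
    derivative^[n] (X ^ n * (1 - (X : ℝ[X])) ^ n) := by
  have h := factorial_mul_shiftedLegendre_eq n
  have h2 := congrArg (Polynomial.map (Int.castRingHom ℝ)) h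
  rw [Polynomial.map_mul, ← iterate_derivative_map] at h2
  simpa [SL] using h2

/-- Rodrigues' polynomials and the shifted Legendre polynomials -/
theorem rodrigues_comp (n : ℕ) : (derivative^[n] ((X ^ 2 - 1) ^ n)).comp (2 * X - 1) =
    C ((-1 : ℝ) ^ n * (2 ^ n * n.factorial)) * SL n := by
  have h1 := iterate_derivative_comp_affine ((X ^ 2 - 1) ^ n) n
  have h2 : (((X : ℝ[X]) ^ 2 - 1) ^ n).comp (2 * X - 1) = C ((-4 : ℝ) ^ n) * (X ^ n * (1 - X) ^ n) := by
    have e : ((X : ℝ[X]) ^ 2 - 1).comp (2 * X - 1) = C (-4) * (X * (1 - X)) := by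
      rw [sub_comp, pow_comp, X_comp, one_comp, C_neg]
      have : (C (4 : ℝ) : ℝ[X]) = 4 := rfl
      rw [this]
      ring
    rw [pow_comp, e, mul_pow, mul_pow, C_pow]
  rw [h2, iterate_derivative_C_mul, ← fact_mul_SL] at h1
  have h3 : (C ((1 / 2 : ℝ) ^ n) : ℝ[X]) * (C ((-4) ^ n) * ((n.factorial : ℝ[X]) * SL n)) =
      C ((1 / 2 : ℝ) ^ n) * (C (2 ^ n) * (derivative^[n] ((X ^ 2 - 1) ^ n)).comp (2 * X - 1)) := by
    rw [h1]
  have h4 : (C ((1 / 2 : ℝ) ^ n) : ℝ[X]) * C (2 ^ n) = 1 := by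
    rw [← C_mul, ← mul_pow]
    norm_num
  rw [← mul_assoc (C ((1 / 2 : ℝ) ^ n)) (C (2 ^ n)), h4, one_mul] at h3
  rw [← h3, ← mul_assoc, ← C_mul, ← mul_pow, ← C_eq_natCast, ← mul_assoc, ← C_mul]
  congr 2
  rw [← mul_assoc, ← mul_pow]
  norm_num

theorem aeval_comp_affine (p : ℝ[X]) (z : ℂ) :
    aeval z (p.comp (2 * X - 1)) = aeval (2 * z - 1) p := by
  rw [aeval_comp]
  congr 1
  simp [aeval_def]

/-- `Q` is not a polynomial in `k (k + 1)`. -/
theorem main_aux {P : ℕ → ℝ[X]} {u : ℕ → ℝ} (hu : ∀ k, u k ≠ 0)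
    (hP : ∀ k, (P k).comp (2 * X - 1) = C (u k) * SL k) {Q A B : ℝ[X]} (hB : B ≠ 0)
    (h : ∀ k : ℝ, Q.eval k = A.eval (k * (k + 1)) + (2 * k + 1) * B.eval (k * (k + 1)))
    (hdeg : 0 < Q.degree) :
    ∃ (n : ℕ) (a : ℕ → ℝ), RealRooted (∑ k ∈ range (n + 1), C (a k) * P k) ∧
      (∑ k ∈ range (n + 1), C (Q.eval (k : ℝ) * a k) * P k) ≠ 0 ∧
      ¬ RealRooted (∑ k ∈ range (n + 1), C (Q.eval (k : ℝ) * a k) * P k) := by
  -- it is enough to find `n` such that `q n γ` does not split
  have key : ∃ n : ℕ, ¬ (q n (fun k => Q.eval (k : ℝ))).Splits := by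
    rcases le_or_gt 0 Q.leadingCoeff with hl | hl
    · have h1 : Tendsto (fun k : ℕ => Q.eval (k : ℝ)) atTop atTop :=
        (tendsto_atTop_of_leadingCoeff_nonneg Q hdeg hl).comp tendsto_natCast_atTop_atTop
      exact (not_realRooted hB (fun k => h k) zero_lt_one
        (h1.eventually_ge_atTop 1)).exists
    · have hdeg' : 0 < (-Q).degree := by rwa [degree_neg]
      have hl' : 0 ≤ (-Q).leadingCoeff := by
        rw [leadingCoeff_neg]
        linarith
      have h1 : Tendsto (fun k : ℕ => (-Q).eval (k : ℝ)) atTop atTop :=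
        (tendsto_atTop_of_leadingCoeff_nonneg (-Q) hdeg' hl').comp tendsto_natCast_atTop_atTop
      have hB' : -B ≠ 0 := neg_ne_zero.2 hB
      obtain ⟨n, hn⟩ := (not_realRooted (γ := fun k : ℕ => (-Q).eval (k : ℝ)) (A := -A) hB'
        (fun k => by
          show (-Q).eval (k : ℝ) = _
          rw [eval_neg, h, eval_neg, eval_neg]
          ring) zero_lt_one
        (h1.eventually_ge_atTop 1)).exists
      refine ⟨n, fun hs => hn ?_⟩
      have e : q n (fun k : ℕ => (-Q).eval (k : ℝ)) = -(q n (fun k : ℕ => Q.eval (k : ℝ))) := by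
        unfold q
        rw [← Finset.sum_neg_distrib]
        refine Finset.sum_congr rfl fun k _ => ?_
        rw [← neg_mul, ← C_neg]
        congr 2
        simp only [eval_neg]
        ring
      rw [e]
      exact hs.neg
  obtain ⟨n, hn⟩ := key
  refine ⟨n, fun k => W n k * (-1) ^ k / u k, ?_, ?_, ?_⟩
  · have e : (∑ k ∈ range (n + 1), C (W n k * (-1) ^ k / u k) * P k).comp (2 * X - 1) =
        X ^ n := by
      rw [← q_one, q, Polynomial.sum_comp]
      refine Finset.sum_congr rfl fun k _ => ?_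
      rw [mul_comp, C_comp, hP, ← mul_assoc, ← C_mul]
      congr 2
      field_simp [hu k]
    intro z hz
    have h2 := aeval_comp_affine (∑ k ∈ range (n + 1), C (W n k * (-1) ^ k / u k) * P k)
      ((z + 1) / 2)
    rw [e] at h2
    have h3 : (2 : ℂ) * ((z + 1) / 2) - 1 = z := by ring
    rw [h3, hz, map_pow, aeval_X] at h2
    have h5 : z = -1 := by
      have h6 : (z + 1) / 2 = 0 := eq_zero_of_pow_eq_zero h2
      have h7 : z + 1 = 0 := by
        rcases div_eq_zero_iff.1 h6 with h8 | h8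
        · exact h8
        · norm_num at h8
      linear_combination h7
    rw [h5]
    simp
  all_goals
    have e : (∑ k ∈ range (n + 1), C (Q.eval (k : ℝ) * (W n k * (-1) ^ k / u k)) * P k).comp
        (2 * X - 1) = q n (fun k => Q.eval (k : ℝ)) := by
      rw [q, Polynomial.sum_comp]
      refine Finset.sum_congr rfl fun k _ => ?_
      rw [mul_comp, C_comp, hP, ← mul_assoc, ← C_mul]
      congr 2
      field_simp [hu k]
  · intro h0
    rw [h0, zero_comp] at e
    apply hn
    rw [← e]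
    exact Splits.zero
  · intro hr
    apply hn
    rw [← e]
    refine splits_of_realRooted _ _ le_rfl fun z hz => ?_
    rw [aeval_comp_affine] at hz
    have h2 := hr _ hz
    simpa using h2

/-- **Main theorem.** If `Q` is a polynomial of odd degree, there is a polynomial `∑ a_k P_k` with
only real zeros such that `∑ Q(k) a_k P_k` has a zero which is not real. -/
theorem main {P : ℕ → ℝ[X]} {u : ℕ → ℝ} (hu : ∀ k, u k ≠ 0)
    (hP : ∀ k, (P k).comp (2 * X - 1) = C (u k) * SL k) {Q : ℝ[X]} (hQ : Odd Q.natDegree) :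
    ∃ (n : ℕ) (a : ℕ → ℝ), RealRooted (∑ k ∈ range (n + 1), C (a k) * P k) ∧
      (∑ k ∈ range (n + 1), C (Q.eval (k : ℝ) * a k) * P k) ≠ 0 ∧
      ¬ RealRooted (∑ k ∈ range (n + 1), C (Q.eval (k : ℝ) * a k) * P k) := by
  obtain ⟨A, B, h⟩ := decomp Q
  refine main_aux hu hP (decomp_odd h hQ) h ?_
  exact natDegree_pos_iff_degree_pos.1 hQ.pos

end Pool.Agent.E8helper19.Leg
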