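import Pool.Agent.E8helper19.Leg.Comb

/-!
# The limits of the alternating sums
-/

set_option autoImplicit false

open Finset Polynomial Filter Topology

namespace Pool.Agent.E8helper19.Leg

/-- the alternating functional, applied to a polynomial in `s = k (k + 1)` times `E j` -/
noncomputable def V (n : ℕ) (φ : ℝ[X]) (j : ℕ) : ℝ :=
  br n (fun k => φ.eval ((k : ℝ) * (k + 1)) * E j k)

theorem V_add (n : ℕ) (φ ψ : ℝ[X]) (j : ℕ) : V n (φ + ψ) j = V n φ j + V n ψ j := by
  unfold V
  rw [← br_add]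
  congr 1
  funext k
  rw [eval_add, add_mul]

theorem V_C_mul (n : ℕ) (c : ℝ) (φ : ℝ[X]) (j : ℕ) : V n (C c * φ) j = c * V n φ j := by
  unfold V
  rw [← br_smul]
  congr 1
  funext k
  rw [eval_mul, eval_C, mul_assoc]

theorem V_X_mul (n : ℕ) (φ : ℝ[X]) (j : ℕ) :
    V n (X * φ) j = (2 * j + 2) * (2 * j + 1) * V n φ (j + 1) + j * (j + 1) * V n φ j := by
  unfold V
  rw [← br_smul, ← br_smul, ← br_add]
  congr 1
  funext k
  rw [eval_mul, eval_X]
  linear_combination (φ.eval ((k : ℝ) * (k + 1))) * sE j k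

theorem ratio_lim : Tendsto (fun n : ℕ => ((n.centralBinom : ℕ) : ℝ) / ((n + 1).centralBinom : ℕ))
    atTop (𝓝 (1 / 4)) := by
  have h1 : ∀ n : ℕ, ((n.centralBinom : ℕ) : ℝ) / ((n + 1).centralBinom : ℕ) =
      1 / 4 + 1 / 4 * (1 / (2 * (n : ℝ) + 1)) := by
    intro n
    have h := Nat.succ_mul_centralBinom_succ n
    have h2 : ((n : ℝ) + 1) * ((n + 1).centralBinom : ℕ) =
        2 * (2 * n + 1) * (n.centralBinom : ℕ) := by exact_mod_cast h
    have h3 : (0 : ℝ) < ((n + 1).centralBinom : ℕ) := by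
      exact_mod_cast Nat.centralBinom_pos _
    have h4 : (0 : ℝ) < 2 * (n : ℝ) + 1 := by positivity
    field_simp
    linarith
  simp_rw [h1]
  have h2 : Tendsto (fun n : ℕ => 1 / (2 * (n : ℝ) + 1)) atTop (𝓝 0) := by
    have : Tendsto (fun n : ℕ => 2 * (n : ℝ) + 1) atTop atTop := by
      apply Filter.tendsto_atTop_add_const_right
      exact Filter.Tendsto.const_mul_atTop (by norm_num) tendsto_natCast_atTop_atTop
    exact Filter.Tendsto.const_div_atTop this 1
  have h3 := (h2.const_mul (1 / 4 : ℝ)).const_add (1 / 4 : ℝ)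
  simpa using h3

theorem central_lim (j : ℕ) :
    Tendsto (fun n : ℕ => (((n - j).centralBinom : ℕ) : ℝ) / (n.centralBinom : ℕ)) atTop
      (𝓝 ((1 / 4) ^ j)) := by
  induction j with
  | zero =>
    simp only [Nat.sub_zero, pow_zero]
    refine tendsto_const_nhds.congr fun n => ?_
    have h3 : (0 : ℝ) < (n.centralBinom : ℕ) := by
      exact_mod_cast Nat.centralBinom_pos _
    rw [div_self h3.ne']
  | succ j ih =>
    have h1 := ratio_lim.comp (tendsto_sub_atTop_nat (j + 1))
    have h2 := h1.mul ih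
    rw [pow_succ, mul_comm]
    refine h2.congr' ?_
    filter_upwards [eventually_ge_atTop (j + 1)] with n hn
    simp only [Function.comp]
    have e : n - (j + 1) + 1 = n - j := by omega
    rw [e]
    have h3 : (0 : ℝ) < ((n - j).centralBinom : ℕ) := by
      exact_mod_cast Nat.centralBinom_pos _
    field_simp

theorem V_one_lim (j : ℕ) : Tendsto (fun n : ℕ => V n 1 j / (n.centralBinom : ℕ)) atTop
    (𝓝 ((-1) ^ j * (1 / 4) ^ j)) := by
  have h1 := (central_lim j).const_mul ((-1 : ℝ) ^ j)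
  refine h1.congr' ?_
  filter_upwards [eventually_ge_atTop j] with n hn
  have h2 : V n 1 j = br n (E j) := by
    unfold V
    congr 1
    funext k
    simp
  rw [h2, br_E hn, mul_div_assoc]

/-- the product `∏_{l < i} (s - l (l + 1))` -/
noncomputable def Dp (i : ℕ) : ℝ[X] := ∏ l ∈ range i, (X - C ((l : ℝ) * (l + 1)))

theorem Dp_monic (i : ℕ) : (Dp i).Monic := by
  unfold Dp
  exact monic_prod_of_monic _ _ fun l _ => monic_X_sub_C _

theorem Dp_natDegree (i : ℕ) : (Dp i).natDegree = i := by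
  unfold Dp
  rw [natDegree_prod_of_monic _ _ fun l _ => monic_X_sub_C _]
  have h : ∀ l ∈ range i, (X - C ((l : ℝ) * (l + 1))).natDegree = 1 :=
    fun l _ => natDegree_X_sub_C _
  rw [Finset.sum_congr rfl h]
  simp

/-- the limit polynomial for `Dp i` -/
noncomputable def wD (i : ℕ) : ℝ[X] :=
  C (∏ l ∈ range i, (-((l : ℝ) + 1 / 2))) * ∏ l ∈ range i, (X + C ((l : ℝ) + 1))

theorem Dp_lim (i : ℕ) : ∀ j : ℕ, Tendsto (fun n : ℕ => V n (Dp i) j / (n.centralBinom : ℕ)) atTop
    (𝓝 ((-1) ^ j * (1 / 4) ^ j * (wD i).eval (j : ℝ))) := by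
  induction i with
  | zero =>
    intro j
    have h := V_one_lim j
    simpa [Dp, wD] using h
  | succ i ih =>
    intro j
    have h1 : ∀ n, V n (Dp (i + 1)) j = (2 * j + 2) * (2 * j + 1) * V n (Dp i) (j + 1) +
        (j * (j + 1) - i * (i + 1)) * V n (Dp i) j := by
      intro n
      have e : Dp (i + 1) = X * Dp i + C (-((i : ℝ) * (i + 1))) * Dp i := by
        unfold Dp
        rw [Finset.prod_range_succ]
        simp only [map_neg]
        ring
      rw [e, V_add, V_X_mul, V_C_mul]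
      ring
    simp_rw [h1, add_div, mul_div_assoc]
    have h2 := ((ih (j + 1)).const_mul ((2 * (j : ℝ) + 2) * (2 * j + 1))).add
      ((ih j).const_mul ((j : ℝ) * (j + 1) - i * (i + 1)))
    have h3 : (∏ l ∈ range i, ((j : ℝ) + 1 + ((l : ℝ) + 1))) * (j + 1) =
        (∏ l ∈ range i, ((j : ℝ) + ((l : ℝ) + 1))) * (j + 1 + i) := by
      have : ∀ i : ℕ, (∏ l ∈ range i, ((j : ℝ) + 1 + ((l : ℝ) + 1))) * (j + 1) =
        (∏ l ∈ range i, ((j : ℝ) + ((l : ℝ) + 1))) * (j + 1 + i) := by
        intro i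
        induction i with
        | zero => simp
        | succ i ih =>
          rw [Finset.prod_range_succ, Finset.prod_range_succ, mul_right_comm, ih]
          push_cast
          ring
      exact this i
    have h4 : (-1) ^ j * (1 / 4) ^ j * (wD (i + 1)).eval (j : ℝ) =
        (2 * (j : ℝ) + 2) * (2 * j + 1) *
          ((-1) ^ (j + 1) * (1 / 4) ^ (j + 1) * (wD i).eval ((j + 1 : ℕ) : ℝ)) +
        ((j : ℝ) * (j + 1) - i * (i + 1)) * ((-1) ^ j * (1 / 4) ^ j * (wD i).eval (j : ℝ)) := by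
      unfold wD
      simp only [eval_mul, eval_C, eval_prod, eval_add, eval_X]
      rw [Finset.prod_range_succ, Finset.prod_range_succ]
      push_cast
      rw [pow_succ, pow_succ]
      linear_combination ((-1 : ℝ) ^ j * (1 / 4) ^ j * (1 / 4) * 2 * (2 * j + 1) *
        ∏ x ∈ range i, (-((x : ℝ) + 1 / 2))) * h3
    rw [h4]
    exact h2

theorem wD_degree (i : ℕ) : (wD i).degree = i := by
  unfold wD
  have h1 : (∏ l ∈ range i, (-((l : ℝ) + 1 / 2))) ≠ 0 := by
    rw [Finset.prod_ne_zero_iff]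
    intro l _
    have : (0 : ℝ) < (l : ℝ) + 1 / 2 := by positivity
    linarith
  have h2 : (∏ l ∈ range i, (X + C ((l : ℝ) + 1))).natDegree = i := by
    rw [natDegree_prod_of_monic _ _ fun l _ => monic_X_add_C _]
    have h : ∀ l ∈ range i, (X + C ((l : ℝ) + 1)).natDegree = 1 :=
      fun l _ => natDegree_X_add_C _
    rw [Finset.sum_congr rfl h]
    simp
  have h3 : (∏ l ∈ range i, (X + C ((l : ℝ) + 1))).Monic :=
    monic_prod_of_monic _ _ fun l _ => monic_X_add_C _
  rw [degree_C_mul h1, degree_eq_natDegree h3.ne_zero, h2]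

theorem V_zero (n j : ℕ) : V n 0 j = 0 := by
  unfold V br
  simp

/-- for every polynomial `φ` the limits of the normalised sums are, up to a factor, the values of a
polynomial of the same degree -/
theorem exists_w (D : ℕ) : ∀ φ : ℝ[X], φ.degree < D → ∃ w : ℝ[X], w.degree = φ.degree ∧
    ∀ j : ℕ, Tendsto (fun n : ℕ => V n φ j / (n.centralBinom : ℕ)) atTop
      (𝓝 ((-1) ^ j * (1 / 4) ^ j * w.eval (j : ℝ))) := by
  induction D with
  | zero =>
    intro φ h
    have h0 : φ = 0 := by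
      rw [← degree_eq_bot]
      simpa using h
    subst h0
    refine ⟨0, rfl, fun j => ?_⟩
    simp [V_zero]
  | succ D ih =>
    intro φ h
    by_cases hD : φ.degree < D
    · exact ih φ hD
    have hφ0 : φ ≠ 0 := by
      rintro rfl
      apply hD
      rw [degree_zero]
      exact WithBot.bot_lt_coe D
    have hdeg : φ.degree = D := by
      rw [degree_eq_natDegree hφ0] at h hD ⊢
      norm_cast at h hD ⊢
      omega
    set a := φ.leadingCoeff with ha
    have ha0 : a ≠ 0 := leadingCoeff_ne_zero.2 hφ0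
    have hDp : (C a * Dp D).degree = D := by
      rw [degree_C_mul ha0, degree_eq_natDegree (Dp_monic D).ne_zero, Dp_natDegree]
    have hlt : (φ - C a * Dp D).degree < D := by
      rw [← hdeg]
      apply degree_sub_lt_left (hdeg.trans hDp.symm) hφ0
      rw [leadingCoeff_mul, leadingCoeff_C, (Dp_monic D).leadingCoeff, mul_one]
    obtain ⟨w, hw1, hw2⟩ := ih _ hlt
    refine ⟨C a * wD D + w, ?_, fun j => ?_⟩
    · rw [hdeg, degree_add_eq_left_of_degree_lt]
      · rw [degree_C_mul ha0, wD_degree]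
      · rw [degree_C_mul ha0, wD_degree, hw1]
        exact hlt
    · have h1 := ((Dp_lim D j).const_mul a).add (hw2 j)
      have h2 : a * ((-1) ^ j * (1 / 4) ^ j * (wD D).eval (j : ℝ)) +
          (-1) ^ j * (1 / 4) ^ j * w.eval (j : ℝ) =
          (-1) ^ j * (1 / 4) ^ j * (C a * wD D + w).eval (j : ℝ) := by
        rw [eval_add, eval_mul, eval_C]
        ring
      rw [h2] at h1
      refine h1.congr fun n => ?_
      have e : φ = C a * Dp D + (φ - C a * Dp D) := by ring
      conv_rhs => rw [e, V_add, V_C_mul]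
      ring

/-- if `φ ≠ 0`, the limit is not zero for all large `j` -/
theorem exists_lim {φ : ℝ[X]} (hφ : φ ≠ 0) : ∃ v : ℕ → ℝ,
    (∀ j : ℕ, Tendsto (fun n : ℕ => V n φ j / (n.centralBinom : ℕ)) atTop (𝓝 (v j))) ∧
    ∀ᶠ j in atTop, v j ≠ 0 := by
  obtain ⟨w, hw1, hw2⟩ := exists_w (φ.natDegree + 1) φ (by
    rw [degree_eq_natDegree hφ]
    exact_mod_cast Nat.lt_succ_self _)
  refine ⟨_, hw2, ?_⟩
  have hw0 : w ≠ 0 := by
    rintro rfl
    rw [degree_zero] at hw1
    exact hφ (degree_eq_bot.1 hw1.symm)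
  have h1 : {x : ℝ | w.IsRoot x}.Finite := finite_setOfPred_isRoot hw0
  have h2 : {j : ℕ | w.IsRoot (j : ℝ)}.Finite := h1.preimage Nat.cast_injective.injOn
  have h3 : ∀ᶠ j : ℕ in atTop, ¬ w.IsRoot (j : ℝ) := by
    rw [← Nat.cofinite_eq_atTop]
    exact h2.eventually_cofinite_notMem
  filter_upwards [h3] with j hj
  have h4 : ((-1 : ℝ) ^ j * (1 / 4) ^ j) ≠ 0 := by positivity
  exact mul_ne_zero h4 hj

end Pool.Agent.E8helper19.Leg
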