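import Mathlib

/-!
# An inequality for polynomials with only real zeros
-/

set_option autoImplicit false

open Polynomial Filter Topology

namespace Pool.Agent.E8helper19.Leg

/-- all complex zeros of `p` are real -/
def RealRooted (p : ℝ[X]) : Prop := ∀ z : ℂ, aeval z p = 0 → z.im = 0

theorem RealRooted.ne_zero {p : ℝ[X]} (h : RealRooted p) : p ≠ 0 := by
  rintro rfl
  have := h Complex.I (by simp)
  simp at this

theorem splits_of_realRooted (D : ℕ) : ∀ p : ℝ[X], p.natDegree ≤ D → RealRooted p → p.Splits := by
  induction D with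
  | zero =>
    intro p hp _
    rw [eq_C_of_natDegree_le_zero hp]
    exact Splits.C _
  | succ D ih =>
    intro p hp h
    have hp0 := h.ne_zero
    by_cases hd : p.natDegree = 0
    · exact ih p (by omega) h
    have hdeg : 0 < (p.map (algebraMap ℝ ℂ)).degree := by
      rw [degree_map]
      exact natDegree_pos_iff_degree_pos.1 (Nat.pos_of_ne_zero hd)
    obtain ⟨z, hz⟩ := Complex.exists_root hdeg
    have hz' : aeval z p = 0 := by
      rw [IsRoot.def, eval_map_algebraMap] at hz
      exact hz
    have him := h z hz'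
    have hzr : z = ((z.re : ℝ) : ℂ) := by
      apply Complex.ext
      · simp
      · simpa using him
    have hroot : p.IsRoot z.re := by
      rw [hzr] at hz'
      have h2 : aeval ((algebraMap ℝ ℂ) z.re) p = 0 := hz'
      rw [aeval_algebraMap_apply] at h2
      have h3 : (aeval z.re) p = 0 := (map_eq_zero (algebraMap ℝ ℂ)).1 h2
      rwa [coe_aeval_eq_eval] at h3
    obtain ⟨q, hq⟩ := dvd_iff_isRoot.2 hroot
    have hq0 : q ≠ 0 := by
      rintro rfl
      rw [mul_zero] at hq
      exact hp0 hq
    have hqr : RealRooted q := by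
      intro w hw
      apply h w
      rw [hq, map_mul, hw, mul_zero]
    have hqd : q.natDegree ≤ D := by
      have : p.natDegree = 1 + q.natDegree := by
        conv_lhs => rw [hq]
        rw [natDegree_mul (X_sub_C_ne_zero _) hq0, natDegree_X_sub_C]
      omega
    rw [hq]
    exact (Splits.X_sub_C _).mul (ih q hqd hqr)

theorem splits_derivative {p : ℝ[X]} (h : p.Splits) : (derivative p).Splits := by
  by_cases hd : p.natDegree = 0
  · rw [eq_C_of_natDegree_eq_zero hd, derivative_C]
    exact Splits.zero
  have h1 := card_roots_le_derivative p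
  have h2 := (splits_iff_card_roots.1 h)
  have h3 : (derivative p).natDegree < p.natDegree := natDegree_derivative_lt hd
  have h4 := card_roots' (derivative p)
  exact splits_iff_card_roots.2 (by omega)

theorem splits_iterate {p : ℝ[X]} (h : p.Splits) (r : ℕ) : (derivative^[r] p).Splits := by
  induction r with
  | zero => exact h
  | succ r ih =>
    rw [Function.iterate_succ_apply']
    exact splits_derivative ih

/-- the inequality, as a property -/
def Ineq (f : ℝ[X]) : Prop := f.eval 0 ≠ 0 →
  (f.eval 1) ^ 2 ≤ (f.eval 0) ^ 2 * Real.exp (2 * ((derivative f).eval 0 / f.eval 0) +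
    (((derivative f).eval 0 / f.eval 0) ^ 2 - (derivative (derivative f)).eval 0 / f.eval 0))

theorem ineq_C (c : ℝ) : Ineq (C c) := by
  intro _
  simp

theorem ineq_X_sub_C (z : ℝ) : Ineq (X - C z) := by
  intro h
  simp only [eval_sub, eval_X, eval_C, zero_sub] at h
  have hz : z ≠ 0 := fun h' => h (by rw [h', neg_zero])
  simp only [eval_sub, eval_X, eval_C, zero_sub, derivative_sub, derivative_X, derivative_C,
    sub_zero, eval_one, derivative_one, eval_zero, zero_div]
  have h1 := Real.add_one_le_exp (2 * (1 / -z) + (1 / -z) ^ 2)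
  have h2 : (1 - z) ^ 2 = (-z) ^ 2 * (2 * (1 / -z) + (1 / -z) ^ 2 + 1) := by
    field_simp
    ring
  rw [h2]
  exact mul_le_mul_of_nonneg_left h1 (sq_nonneg _)

theorem Ineq.mul {f g : ℝ[X]} (hf : Ineq f) (hg : Ineq g) : Ineq (f * g) := by
  intro h
  rw [eval_mul] at h
  have hf0 : f.eval 0 ≠ 0 := left_ne_zero_of_mul h
  have hg0 : g.eval 0 ≠ 0 := right_ne_zero_of_mul h
  have h1 := mul_le_mul (hf hf0) (hg hg0) (sq_nonneg _) (by positivity)
  simp only [derivative_mul, eval_mul, eval_add, derivative_add]
  rw [mul_pow]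
  refine h1.trans (le_of_eq ?_)
  rw [mul_mul_mul_comm, ← Real.exp_add, mul_pow]
  congr 2
  field_simp
  ring

theorem ineq_of_splits {f : ℝ[X]} (h : f.Splits) : Ineq f := by
  rw [h.eq_prod_roots]
  refine Ineq.mul (ineq_C _) ?_
  generalize f.roots = s
  induction s using Multiset.induction_on with
  | empty =>
    simp only [Multiset.map_zero, Multiset.prod_zero]
    exact ineq_C 1
  | cons a s ih =>
    rw [Multiset.map_cons, Multiset.prod_cons]
    exact Ineq.mul (ineq_X_sub_C a) ih

end Pool.Agent.E8helper19.Leg
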