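import Pool.Agent.E8helper19.Leg.Poly
import Pool.Agent.E8helper19.Leg.Real

/-!
# Polynomial Legendre multiplier sequences are polynomials in `k (k + 1)`
-/

set_option autoImplicit false

open Finset Polynomial Filter Topology

namespace Pool.Agent.E8helper19.Leg

/-- every polynomial is `A (k (k + 1)) + (2 k + 1) B (k (k + 1))` -/
theorem decomp (Q : ℝ[X]) : ∃ A B : ℝ[X], ∀ k : ℝ,
    Q.eval k = A.eval (k * (k + 1)) + (2 * k + 1) * B.eval (k * (k + 1)) := by
  induction Q using Polynomial.induction_on with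
  | C a => exact ⟨C a, 0, fun k => by simp⟩
  | add p q hp hq =>
    obtain ⟨A, B, h⟩ := hp
    obtain ⟨A', B', h'⟩ := hq
    refine ⟨A + A', B + B', fun k => ?_⟩
    rw [eval_add, h, h', eval_add, eval_add]
    ring
  | monomial n a h =>
    obtain ⟨A, B, h⟩ := h
    refine ⟨C (1 / 2) * (-A + (4 * X + 1) * B), C (1 / 2) * (A - B), fun k => ?_⟩
    rw [pow_succ, ← mul_assoc, eval_mul, h]
    simp only [eval_mul, eval_C, eval_add, eval_neg, eval_X, eval_one, eval_sub, eval_ofNat]
    ring

theorem decomp_odd {Q A B : ℝ[X]}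
    (h : ∀ k : ℝ, Q.eval k = A.eval (k * (k + 1)) + (2 * k + 1) * B.eval (k * (k + 1)))
    (hQ : Odd Q.natDegree) : B ≠ 0 := by
  rintro rfl
  have h1 : Q = A.comp (X * (X + 1)) := by
    apply Polynomial.funext
    intro k
    rw [h, eval_comp]
    simp
  have h2 : (X * (X + 1) : ℝ[X]).natDegree = 2 := by
    have : (X * (X + 1) : ℝ[X]) = X * (X + C 1) := by simp
    rw [this, natDegree_mul X_ne_zero (X_add_C_ne_zero 1), natDegree_X, natDegree_X_add_C]
  rw [h1, natDegree_comp, h2] at hQ
  exact (Nat.not_odd_iff_even.2 (even_two.mul_left _)) hQ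

/-- the main contradiction: for some large `n` the polynomial `q n γ` is not real rooted -/
theorem not_realRooted {γ : ℕ → ℝ} {A B : ℝ[X]} (hB : B ≠ 0)
    (h : ∀ k : ℕ, γ k = A.eval ((k : ℝ) * (k + 1)) + (2 * (k : ℝ) + 1) *
      B.eval ((k : ℝ) * (k + 1)))
    {c : ℝ} (hc : 0 < c) (hγ : ∀ᶠ k in atTop, c ≤ γ k) :
    ∀ᶠ n in atTop, ¬ (q n γ).Splits := by
  set φ : ℝ[X] := (4 * X + 1) * B with hφ
  have hφ0 : φ ≠ 0 := by
    refine mul_ne_zero ?_ hB
    intro h0
    have := congrArg (Polynomial.eval 0) h0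
    simp at this
  obtain ⟨v, hv1, hv2⟩ := exists_lim hφ0
  obtain ⟨K, hK⟩ := Filter.eventually_atTop.1 hγ
  obtain ⟨r, hr1, hr2⟩ := (hv2.and (eventually_ge_atTop K)).exists
  -- the coefficients
  set ℓ : ℕ → ℝ := fun j => (-1) ^ j * ((2 * j).choose j : ℕ) * v j with hℓ
  have hℓr : ℓ r ≠ 0 := by
    have : (0 : ℝ) < ((2 * r).choose r : ℕ) := by exact_mod_cast Nat.choose_pos (by omega)
    exact mul_ne_zero (mul_ne_zero (by positivity) this.ne') hr1
  have hcoef : ∀ j : ℕ, Tendsto (fun n : ℕ => (2 * (n : ℝ) + 1) * (q n γ).coeff j) atTop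
      (𝓝 (ℓ j)) := by
    intro j
    refine ((hv1 j).const_mul ((-1 : ℝ) ^ j * ((2 * j).choose j : ℕ))).congr' ?_
    filter_upwards [eventually_gt_atTop (j + A.natDegree)] with n hn
    rw [q_coeff]
    have e : (fun k : ℕ => (2 * (k : ℝ) + 1) * γ k * E j k) =
        fun k : ℕ => (2 * (k : ℝ) + 1) * (A.eval ((k : ℝ) * (k + 1)) * E j k) +
          φ.eval ((k : ℝ) * (k + 1)) * E j k := by
      funext k
      rw [h k, hφ]
      simp only [eval_mul, eval_add, eval_ofNat, eval_X, eval_one]
      ring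
    rw [e, br_add, Vm_zero A.natDegree A n j le_rfl hn, zero_add]
    unfold kap V
    have h3 : (0 : ℝ) < (n.centralBinom : ℕ) := by
      exact_mod_cast Nat.centralBinom_pos _
    have h4 : (0 : ℝ) < 2 * (n : ℝ) + 1 := by positivity
    field_simp
  -- the values at zero of the derivatives
  have hval : ∀ i : ℕ, ∀ n : ℕ, (derivative^[i] (q n γ)).eval 0 =
      i.factorial * (q n γ).coeff i := by
    intro i n
    rw [← coeff_zero_eq_eval_zero, coeff_iterate_derivative, zero_add,
      Nat.descFactorial_self, nsmul_eq_mul]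
  have hlim : ∀ i : ℕ, Tendsto (fun n : ℕ => (2 * (n : ℝ) + 1) *
      (derivative^[i] (q n γ)).eval 0) atTop (𝓝 (i.factorial * ℓ i)) := by
    intro i
    refine ((hcoef i).const_mul (i.factorial : ℝ)).congr fun n => ?_
    rw [hval]
    ring
  have hd0 : (r.factorial * ℓ r : ℝ) ≠ 0 := by
    have : (0 : ℝ) < r.factorial := by exact_mod_cast Nat.factorial_pos r
    exact mul_ne_zero this.ne' hℓr
  have hquot : ∀ i : ℕ, Tendsto (fun n : ℕ => (derivative^[i] (q n γ)).eval 0 /
      (derivative^[r] (q n γ)).eval 0) atTop (𝓝 (i.factorial * ℓ i / (r.factorial * ℓ r))) := by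
    intro i
    refine ((hlim i).div (hlim r) hd0).congr fun n => ?_
    have h4 : (0 : ℝ) < 2 * (n : ℝ) + 1 := by positivity
    simp only [Pi.div_apply]
    rw [mul_div_mul_left _ _ h4.ne']
  have hinv : Tendsto (fun n : ℕ => (2 * (n : ℝ) + 1)⁻¹) atTop (𝓝 0) := by
    have : Tendsto (fun n : ℕ => 2 * (n : ℝ) + 1) atTop atTop := by
      apply Filter.tendsto_atTop_add_const_right
      exact Filter.Tendsto.const_mul_atTop (by norm_num) tendsto_natCast_atTop_atTop
    exact tendsto_inv_atTop_zero.comp this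
  have hzero : Tendsto (fun n : ℕ => (derivative^[r] (q n γ)).eval 0) atTop (𝓝 0) := by
    have h5 := hinv.mul (hlim r)
    rw [zero_mul] at h5
    refine h5.congr fun n => ?_
    have h4 : (0 : ℝ) < 2 * (n : ℝ) + 1 := by positivity
    rw [← mul_assoc, inv_mul_cancel₀ h4.ne', one_mul]
  -- the right hand side of the inequality tends to zero
  have hrhs : Tendsto (fun n : ℕ => ((derivative^[r] (q n γ)).eval 0) ^ 2 *
      Real.exp (2 * ((derivative^[r + 1] (q n γ)).eval 0 / (derivative^[r] (q n γ)).eval 0) +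
        (((derivative^[r + 1] (q n γ)).eval 0 / (derivative^[r] (q n γ)).eval 0) ^ 2 -
          (derivative^[r + 2] (q n γ)).eval 0 / (derivative^[r] (q n γ)).eval 0))) atTop
      (𝓝 0) := by
    have h6 := ((((hquot (r + 1)).const_mul 2).add (((hquot (r + 1)).pow 2).sub
      (hquot (r + 2)))).rexp)
    have h7 := (hzero.pow 2).mul h6
    simpa using h7
  have hne : ∀ᶠ n : ℕ in atTop, (derivative^[r] (q n γ)).eval 0 ≠ 0 := by
    have := (hlim r).eventually_ne hd0
    filter_upwards [this] with n hn h0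
    exact hn (by rw [h0, mul_zero])
  have hsmall := hrhs.eventually_lt_const (show (0 : ℝ) < c ^ 2 by positivity)
  filter_upwards [hne, hsmall, eventually_ge_atTop r] with n h1 h2 h3 hsp
  have h4 := ineq_of_splits (splits_iterate hsp r) h1
  rw [← Function.iterate_succ_apply' (f := derivative), ← Function.iterate_succ_apply'
    (f := derivative)] at h4
  have h5 : c ≤ (derivative^[r] (q n γ)).eval 1 := by
    rw [q_deriv_one]
    have h6 : (derivative^[r] (q n (fun _ => 1))).eval 1 = (n.descFactorial r : ℝ) := by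
      rw [q_one, iterate_derivative_X_pow_eq_smul]
      simp
    rw [q_deriv_one] at h6
    simp only [mul_one] at h6
    have h7 : (1 : ℝ) ≤ (n.descFactorial r : ℕ) := by
      have : 0 < n.descFactorial r := Nat.descFactorial_pos.2 h3
      exact_mod_cast this
    calc c ≤ c * (n.descFactorial r : ℕ) := by nlinarith
      _ = ∑ k ∈ range (n + 1), c * (W n k * (r.factorial * ((2 * r).choose r : ℕ) * E r k)) := by
          rw [← Finset.mul_sum, h6]
      _ ≤ _ := by
          refine Finset.sum_le_sum fun k _ => ?_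
          rcases Nat.lt_or_ge k r with hk | hk
          · rw [E_zero hk]
            simp
          · rw [mul_comm]
            refine mul_le_mul_of_nonneg_left (hK k (hr2.trans hk)) ?_
            have h8 := W_nonneg n k
            have h9 : (0 : ℝ) ≤ E r k := by unfold E; positivity
            positivity
  have h6 : c ^ 2 ≤ ((derivative^[r] (q n γ)).eval 1) ^ 2 := by
    apply pow_le_pow_left₀ hc.le h5
  linarith

end Pool.Agent.E8helper19.Leg
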