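import Pool.Agent.E8helper19.Leg.Lim

/-!
# The expansion in Legendre polynomials
-/

set_option autoImplicit false

open Finset Polynomial Filter Topology

namespace Pool.Agent.E8helper19.Leg

/-- the shifted Legendre polynomial, with real coefficients -/
noncomputable def SL (k : ℕ) : ℝ[X] := (shiftedLegendre k).map (Int.castRingHom ℝ)

theorem choose_id (j k : ℕ) :
    (k.choose j : ℝ) * ((k + j).choose k : ℕ) = ((2 * j).choose j : ℕ) * E j k := by
  unfold E
  rcases Nat.lt_or_ge k j with h | h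
  · rw [Nat.choose_eq_zero_of_lt h, Nat.choose_eq_zero_of_lt (by omega : k + j < 2 * j)]
    simp
  · have h1 := Nat.choose_mul (n := k + j) (k := 2 * j) (s := j) (by omega)
    have e1 : k + j - j = k := by omega
    have e2 : 2 * j - j = j := by omega
    rw [e1, e2] at h1
    have h2 : (k + j).choose k = (k + j).choose j := by
      rw [Nat.choose_symm_add]
    rw [h2]
    have h3 : (((k + j).choose (2 * j) * (2 * j).choose j : ℕ) : ℝ) =
        (((k + j).choose j * k.choose j : ℕ) : ℝ) := by exact_mod_cast h1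
    push_cast at h3
    linarith

theorem SL_coeff (k j : ℕ) : (SL k).coeff j = (-1) ^ j * ((2 * j).choose j : ℕ) * E j k := by
  unfold SL
  rw [coeff_map, coeff_shiftedLegendre]
  simp only [Int.coe_castRingHom, Int.cast_mul, Int.cast_pow, Int.cast_neg, Int.cast_one,
    Int.cast_natCast]
  rw [mul_assoc, choose_id, mul_assoc]

theorem SL_symm (k : ℕ) : (SL k).comp (1 - X) = (-1) ^ k * SL k := by
  have h := neg_one_pow_mul_shiftedLegendre_comp_one_sub_X_eq k
  have h2 := congrArg (Polynomial.map (Int.castRingHom ℝ)) h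
  rw [Polynomial.map_mul, Polynomial.map_comp] at h2
  simp only [Polynomial.map_pow, Polynomial.map_neg, Polynomial.map_one, Polynomial.map_sub,
    Polynomial.map_X] at h2
  unfold SL
  rw [← h2, ← mul_assoc, ← pow_add, ← two_mul, pow_mul]
  simp [h2]

theorem SL_deriv_zero (k r : ℕ) : (derivative^[r] (SL k)).eval 0 =
    r.factorial * ((-1) ^ r * ((2 * r).choose r : ℕ) * E r k) := by
  rw [← coeff_zero_eq_eval_zero, coeff_iterate_derivative, zero_add, SL_coeff,
    Nat.descFactorial_self, nsmul_eq_mul]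

theorem SL_deriv_one (k r : ℕ) : (derivative^[r] (SL k)).eval 1 =
    (-1) ^ k * (r.factorial * ((2 * r).choose r : ℕ) * E r k) := by
  have h1 : SL k = (-1) ^ k * (SL k).comp (1 - X) := by
    rw [SL_symm, ← mul_assoc, ← pow_add, ← two_mul, pow_mul]
    simp
  have h2 : (-1 : ℝ[X]) ^ k = C ((-1) ^ k) := by simp
  rw [h1, h2, iterate_derivative_C_mul, iterate_derivative_comp_one_sub_X]
  simp only [eval_mul, eval_C, eval_pow, eval_neg, eval_one, eval_comp, eval_sub, eval_X, sub_self]
  rw [SL_deriv_zero]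
  have h3 : ((-1 : ℝ) ^ r) * (-1) ^ r = 1 := by
    rw [← pow_add, ← two_mul, pow_mul]
    simp
  linear_combination ((-1 : ℝ) ^ k * (r.factorial * ((2 * r).choose r : ℕ) * E r k)) * h3

/-- `n! ^ 2 / (2 n + 1)!` -/
noncomputable def kap (n : ℕ) : ℝ := 1 / ((2 * n + 1) * (n.centralBinom : ℕ))

theorem kap_pos (n : ℕ) : 0 < kap n := by
  unfold kap
  have h3 : (0 : ℝ) < (n.centralBinom : ℕ) := by
    exact_mod_cast Nat.centralBinom_pos _
  positivity

/-- the weights of `(1 + x) ^ n = 2 ^ n ∑ W n k P_k` -/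
noncomputable def W (n k : ℕ) : ℝ := kap n * ((2 * k + 1) * ((2 * n + 1).choose (n - k) : ℕ))

theorem W_nonneg (n k : ℕ) : 0 ≤ W n k := by
  unfold W
  have := kap_pos n
  positivity

/-- `∑ W n k γ_k (-1)^k SL k` -/
noncomputable def q (n : ℕ) (γ : ℕ → ℝ) : ℝ[X] :=
  ∑ k ∈ range (n + 1), C (W n k * γ k * (-1) ^ k) * SL k

theorem q_coeff (n j : ℕ) (γ : ℕ → ℝ) : (q n γ).coeff j =
    kap n * ((-1) ^ j * ((2 * j).choose j : ℕ)) *
      br n (fun k : ℕ => (2 * (k : ℝ) + 1) * γ k * E j k) := by
  unfold q br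
  rw [finsetSum_coeff, Finset.mul_sum]
  refine Finset.sum_congr rfl fun k _ => ?_
  rw [coeff_C_mul, SL_coeff]
  unfold W
  ring

theorem q_deriv_one (n r : ℕ) (γ : ℕ → ℝ) : (derivative^[r] (q n γ)).eval 1 =
    ∑ k ∈ range (n + 1), W n k * (r.factorial * ((2 * r).choose r : ℕ) * E r k) * γ k := by
  unfold q
  rw [iterate_derivative_sum, eval_finsetSum]
  refine Finset.sum_congr rfl fun k _ => ?_
  rw [iterate_derivative_C_mul, eval_mul, eval_C, SL_deriv_one]
  have h3 : ((-1 : ℝ) ^ k) * (-1) ^ k = 1 := by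
    rw [← pow_add, ← two_mul, pow_mul]
    simp
  linear_combination (W n k * γ k * (r.factorial * ((2 * r).choose r : ℕ) * E r k)) * h3

/-- the expansion of `X ^ n` -/
theorem q_one (n : ℕ) : q n (fun _ => 1) = X ^ n := by
  ext j
  rw [q_coeff, coeff_X_pow]
  simp only [mul_one]
  rcases lt_trichotomy j n with h | h | h
  · rw [br_mE h, if_neg h.ne, mul_zero]
  · subst h
    rw [if_pos rfl]
    rw [br_shift (q := j) (by omega)]
    · have e : j + 1 - j = 1 := by omega
      rw [e, Finset.sum_range_one]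
      simp only [add_zero, Nat.sub_self, Nat.choose_zero_right, Nat.cast_one, mul_one]
      unfold E kap
      rw [← two_mul, Nat.choose_self, Nat.centralBinom_eq_two_mul_choose]
      have h3 : (0 : ℝ) < ((2 * j).choose j : ℕ) := by
        exact_mod_cast Nat.choose_pos (by omega)
      have h4 : ((-1 : ℝ) ^ j) * (-1) ^ j = 1 := by
        rw [← pow_add, ← two_mul, pow_mul]
        simp
      have h5 : (0 : ℝ) < 2 * (j : ℝ) + 1 := by positivity
      field_simp
      simp only [Nat.cast_one, mul_one]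
      linear_combination h4
    · intro k hk
      rw [E_zero hk, mul_zero]
  · rw [if_neg h.ne']
    unfold br
    rw [Finset.sum_eq_zero, mul_zero]
    intro k hk
    have h2 : E j k = 0 := E_zero (by have := Finset.mem_range.1 hk; omega)
    simp only [h2, mul_zero]

/-- the sums with the factor `2 k + 1` vanish -/
theorem Vm_zero (D : ℕ) : ∀ (φ : ℝ[X]) (n j : ℕ), φ.natDegree ≤ D → j + D < n →
    br n (fun k : ℕ => (2 * (k : ℝ) + 1) * (φ.eval ((k : ℝ) * (k + 1)) * E j k)) = 0 := by
  induction D with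
  | zero =>
    intro φ n j h hn
    rw [eq_C_of_natDegree_le_zero h]
    have e : (fun k : ℕ => (2 * (k : ℝ) + 1) *
        ((C (φ.coeff 0)).eval ((k : ℝ) * (k + 1)) * E j k)) =
        fun k : ℕ => φ.coeff 0 * ((2 * (k : ℝ) + 1) * E j k) := by
      funext k
      rw [eval_C]
      ring
    rw [e, br_smul, br_mE (by omega), mul_zero]
  | succ D ih =>
    intro φ n j h hn
    have hd : φ.divX.natDegree ≤ D := by
      rw [natDegree_divX_eq_natDegree_tsub_one]
      omega
    have e : (fun k : ℕ => (2 * (k : ℝ) + 1) * (φ.eval ((k : ℝ) * (k + 1)) * E j k)) =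
        fun k : ℕ => ((2 * (j : ℝ) + 2) * (2 * j + 1)) * ((2 * (k : ℝ) + 1) *
            (φ.divX.eval ((k : ℝ) * (k + 1)) * E (j + 1) k)) +
          (((j : ℝ) * (j + 1)) * ((2 * (k : ℝ) + 1) *
            (φ.divX.eval ((k : ℝ) * (k + 1)) * E j k)) +
          φ.coeff 0 * ((2 * (k : ℝ) + 1) * E j k)) := by
      funext k
      conv_lhs => rw [← divX_mul_X_add φ]
      rw [eval_add, eval_mul, eval_X, eval_C]
      linear_combination ((2 * (k : ℝ) + 1) * φ.divX.eval ((k : ℝ) * (k + 1))) * sE j k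
    rw [e, br_add, br_add, br_smul, br_smul, br_smul, ih _ n (j + 1) hd (by omega),
      ih _ n j hd (by omega), br_mE (by omega)]
    ring

end Pool.Agent.E8helper19.Leg
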